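import Pool.Agent.Helper76.TX.StW
import Pool.Agent.Helper14.CV.StB

/-!
# Project TU, MODULE ZRX: vanishing of `evX`
-/

set_option autoImplicit false

open UpperHalfPlane CongruenceSubgroup
open scoped MatrixGroups

namespace Pool.Agent.Helper32.TX

open Pool.Agent.Helper76.TX Pool.Agent.Helper14.CV Pool.Agent.Helper14.TT Pool.Agent.Helper78.TW

/-- Iterates of a Hecke operator on an eigenvector. -/
private lemma eqc_iter {G : ℤ → ℤ → ℂ} {l : ℕ} (hl : 0 < l) {lam : ℂ}
    (h : EqC (Tl l 1 G) (lam • G)) (i : ℕ) : EqC ((Tl l 1)^[i] G) (lam ^ i • G) := by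
  induction i with
  | zero =>
    rw [pow_zero, one_smul]
    exact EqC.refl _
  | succ i ih =>
    rw [Function.iterate_succ_apply]
    have h1 := h.Tl_iter hl 1 i
    rw [Tl_iter_smul] at h1
    have h2 := h1.trans (ih.smul lam)
    rw [smul_smul, ← pow_succ'] at h2
    exact h2

private lemma evX_zero {G : ℤ → ℤ → ℂ} {l : ℕ} (hl : l ≠ 0) {a b : ℂ}
    (h3 : EqC (Tl 3 1 G) (a • G)) (h5 : EqC (Tl 5 1 G) (b • G)) (h0 : eX l G = 0) :
    evX l G = 0 := by
  funext i j
  rw [evX_apply]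
  have h1 := (eqc_iter (by norm_num) h5 j).Tl_iter (l := 3) (by norm_num) 1 i
  rw [Tl_iter_smul] at h1
  have h2 := h1.trans ((eqc_iter (by norm_num) h3 i).smul (b ^ j))
  rw [eX_congr hl h2, eX_smul, eX_smul, h0, smul_zero, smul_zero]
  rfl

theorem hZrx : StZrx := by
  intro hP2 hP3 hEvx n d f G hn hd hf hG heX
  have hSym : Sym 0 n G := hP2 n f G hG
  have hd0 : d ≠ 0 := by
    rintro rfl
    exact absurd hd (by decide)
  have t3 : EqC (Tl 3 1 G) (fc f 3 • G) := by
    refine EqC.of_eq fun p q hpq => ?_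
    rw [hP3 (2 ^ n) inferInstance f G 3 (fc f 3) hG (by norm_num)
      (hf.hecke 3 Nat.prime_three (by norm_num)) p q hpq]
    rfl
  have t5 : EqC (Tl 5 1 G) (fc f 5 • G) := by
    refine EqC.of_eq fun p q hpq => ?_
    rw [hP3 (2 ^ n) inferInstance f G 5 (fc f 5) hG (by norm_num)
      (hf.hecke 5 Nat.prime_five (by norm_num)) p q hpq]
    rfl
  have hev : evX d G = 0 := evX_zero hd0 t3 t5 heX
  rw [map_add, map_zsmul, (hEvx d n G hd hn hSym).2, hev, smul_zero, smul_zero, add_zero]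

end Pool.Agent.Helper32.TX
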